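import Pool.Agent.L0h43.TD.Nbr

/-!
# Almost primes in short windows next to almost all prime pairs, triples, `k`-tuples

There is an absolute constant `c > 0` with the following property. Let `k`, `ε`, `A` be given, `K` large, and let `T`
be any set of `k` integers in `[0, (log x) ^ A]` and `(u, u + H] ⊂ [0, (log x) ^ A]` any window with `H ≥ K log x`.
Consider the `n ≤ x` for which every `n + t`, `t ∈ T`, is a prime or has no prime factor below `x ^ (1 / 16)`
(for `T = {0, 2}`: the prime pairs, but also the Chen primes). Up to at most `ε 𝔖(T) x / (log x) ^ k`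
exceptions, each of them has at least `c H / log x` integers `n + h`, `u < h ≤ u + H`, with at most three prime
factors, all of them at least `x ^ (1 / 9)`. The same holds in any subset `S` of these `n` for almost every
individual `h`.

Method: see `MP_485179_nt.AlmostPrimeShifts`: the variance of a minorant for almost primes in the window (weighted linear
sieve with universal weights behind a preliminary sieve), over the `T`-tuples without small prime factors in a class
modulo a primorial `W`, is small, uniformly in `T`; here the number of the `h` with `(n + h, W) = 1` is used in place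
of the average of the singular series.
-/

set_option autoImplicit false

open Finset Filter

namespace Pool.Agent.Results.MP_3efbeb_nt.AlmostPrimeNeighbours

/-- `m` has at most three prime factors (counted with multiplicity), all of them at least
`x ^ (1 / 9)` -/
def almostPrime (x : ℝ) (m : ℕ) : Prop :=
  m.primeFactorsList.length ≤ 3 ∧ ∀ p : ℕ, p.Prime → p ∣ m → x ^ (1 / 9 : ℝ) ≤ p

open Classical in
/-- the `1 ≤ n ≤ x` for which every `n + t`, `t ∈ T`, is a prime or has no prime factor below `x ^ (1 / 16)` -/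
noncomputable def tuples (x : ℝ) (T : Finset ℕ) : Finset ℕ :=
  (Icc 1 ⌊x⌋₊).filter (fun n => ∀ t ∈ T,
    (n + t).Prime ∨ ∀ p : ℕ, p.Prime → p ∣ n + t → x ^ (1 / 16 : ℝ) ≤ p)

open Classical in
/-- the number of almost primes `n + h`, `u < h ≤ u + H` -/
noncomputable def nearby (x : ℝ) (n u H : ℕ) : ℕ :=
  ((Ioc u (u + H)).filter (fun h => almostPrime x (n + h))).card

open Classical in
/-- the number of `n ∈ S` for which `n + h` is an almost prime -/
noncomputable def extends_ (x : ℝ) (S : Finset ℕ) (h : ℕ) : ℕ :=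
  (S.filter (fun n => almostPrime x (n + h))).card

/-- the number of `n ∈ S` for which `n + h` is coprime to `W` -/
def coprimes (W : ℕ) (S : Finset ℕ) (h : ℕ) : ℕ :=
  (S.filter (fun n => Nat.Coprime W (n + h))).card

/-- the number of residue classes modulo `p` that meet `T` -/
def nu (T : Finset ℕ) (p : ℕ) : ℕ := (T.image (· % p)).card

/-- the factor at `p` of the singular series of `T` -/
noncomputable def loc (T : Finset ℕ) (p : ℕ) : ℝ :=
  (1 - (nu T p : ℝ) / p) / (1 - 1 / (p : ℝ)) ^ T.card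

/-- the singular series of `T` -/
noncomputable def 𝔖 (T : Finset ℕ) : ℝ := ∏' p : Nat.Primes, loc T p

open Pool.Agent.L0h43.TD

theorem CT_eq (T : Finset ℕ) : Pool.Agent.H387R2.Uni.CT T = 𝔖 T := rfl

theorem WW_eq (w : ℕ) : Pool.Agent.H387R2.Uni.WW w = primorial w := rfl

theorem RS_eq (x : ℝ) (T : Finset ℕ) : RS x T = tuples x T := by
  unfold RS tuples RT
  congr!

/-- The product `𝔖 T` converges for every finite set `T` of natural numbers, and there is an absolute
constant `c > 0` with the following properties, for every `k ∈ ℕ` and `ε > 0`. There are `K` and `w₀` such that for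
all `w ≥ w₀` and `A`, all large `x`, all sets `T` of `k` natural numbers `≤ (log x) ^ A` with `𝔖 T ≠ 0`, and
all windows `(u, u + H]` with `K log x ≤ H` and `u + H ≤ (log x) ^ A`, with `W` the product of the primes `p ≤ w`:

(1) all but at most `ε 𝔖 T x / (log x) ^ k` of the `n ∈ tuples x T` have at least `c H / log x` almost primes `n + h`,
`u < h ≤ u + H`;

(2) for every set `S ⊆ tuples x T`, all but at most `ε H` of the `h ∈ (u, u + H] \ T` satisfy
`#{n ∈ S : n + h almost prime} ≥ c (W / φ(W)) #{n ∈ S : (n + h, W) = 1} / log x - ε 𝔖 T x / (log x) ^ (k + 1)`. -/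
theorem result :
    (∀ T : Finset ℕ, HasProd (fun p : Nat.Primes => loc T p) (𝔖 T)) ∧
    ∃ c : ℝ, 0 < c ∧ ∀ (k : ℕ) (ε : ℝ), 0 < ε →
      ∃ K : ℝ, ∃ w₀ : ℕ, ∀ w : ℕ, w₀ ≤ w → ∀ A : ℝ, ∃ x₀ : ℝ, ∀ x : ℝ, x₀ ≤ x →
        ∀ T : Finset ℕ, T.card = k → (∀ t ∈ T, (t : ℝ) ≤ Real.log x ^ A) → 𝔖 T ≠ 0 →
        ∀ u H : ℕ, K * Real.log x ≤ H → ((u + H : ℕ) : ℝ) ≤ Real.log x ^ A →
          (((tuples x T).filter (fun n => (nearby x n u H : ℝ) < c * (H / Real.log x))).card : ℝ) ≤
            ε * 𝔖 T * (x / Real.log x ^ k) ∧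
          ∀ S ⊆ tuples x T,
            (((Ioc u (u + H) \ T).filter (fun h => (extends_ x S h : ℝ) <
              c * ((primorial w : ℝ) / Nat.totient (primorial w)) * (coprimes (primorial w) S h / Real.log x) -
                ε * 𝔖 T * (x / Real.log x ^ (k + 1)))).card : ℝ) ≤ ε * H := by
  classical
  obtain ⟨c1, hc1, HF⟩ := nbrF
  obtain ⟨c2, hc2, -, HR⟩ := nbrR
  refine ⟨fun T => Pool.Agent.H387R2.Uni.CT_hasProd T, min c1 c2, lt_min hc1 hc2, fun k ε hε => ?_⟩
  obtain ⟨ε₁, hε₁⟩ : ∃ ε₁ : ℝ, ε₁ = min 1 (ε * ε) := ⟨_, rfl⟩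
  have hε₁0 : 0 < ε₁ := by rw [hε₁]; exact lt_min one_pos (by positivity)
  have hε₁1 : ε₁ ≤ 1 := by rw [hε₁]; exact min_le_left _ _
  have hε₁ε : ε₁ ≤ ε * ε := by rw [hε₁]; exact min_le_right _ _
  obtain ⟨K1, hK1, h1⟩ := HF k ε hε
  obtain ⟨K2, hK2, w₀, h2⟩ := HR k ε₁ hε₁0 hε₁1
  refine ⟨max K1 K2, w₀, fun w hw A => ?_⟩
  obtain ⟨B, hB⟩ : ∃ B : ℝ, B = max A 0 := ⟨_, rfl⟩
  have hB0 : 0 ≤ B := by rw [hB]; exact le_max_right _ _
  have hBA : A ≤ B := by rw [hB]; exact le_max_left _ _
  obtain ⟨x₀, hx₀⟩ := eventually_atTop.1 ((h1 B hB0).and ((h2 w hw B hB0).and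
    ((Real.tendsto_log_atTop.eventually_ge_atTop 1).and (eventually_gt_atTop 0))))
  refine ⟨x₀, fun x hx T hTk hTA hS0 u H hKH hHA => ?_⟩
  obtain ⟨a1, a2, a3, hx0⟩ := hx₀ x hx
  set l := Real.log x with hl
  have hl0 : 0 < l := by linarith
  have hAB : l ^ A ≤ l ^ B := Real.rpow_le_rpow_of_exponent_le a3 hBA
  have hTB : ∀ t ∈ T, (t : ℝ) ≤ l ^ B := fun t ht => (hTA t ht).trans hAB
  have hHB : ((u + H : ℕ) : ℝ) ≤ l ^ B := hHA.trans hAB
  have hK1H : K1 * l ≤ H := (mul_le_mul_of_nonneg_right (le_max_left _ _) hl0.le).trans hKH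
  have hK2H : K2 * l ≤ H := (mul_le_mul_of_nonneg_right (le_max_right _ _) hl0.le).trans hKH
  have hH0 : (0 : ℝ) < H := lt_of_lt_of_le (by positivity) hK1H
  have hS1 : 0 < 𝔖 T := lt_of_le_of_ne (Pool.Agent.H387R2.Uni.CT_nonneg T) (Ne.symm hS0)
  constructor
  · have b1 := a1 T hTk hS0 hTB u H hK1H hHB
    rw [RS_eq] at b1
    rw [mul_assoc]
    refine le_trans ?_ b1
    have : (tuples x T).filter (fun n => (nearby x n u H : ℝ) < min c1 c2 * (H / l)) ⊆
        (tuples x T).filter (fun n => (((Ioc u (u + H)).filter (fun h => APx x (n + h))).card : ℝ) < c1 * (H / l)) := by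
      intro n hn
      rw [mem_filter] at hn ⊢
      refine ⟨hn.1, lt_of_lt_of_le hn.2 ?_⟩
      exact mul_le_mul_of_nonneg_right (min_le_left _ _) (by positivity)
    exact_mod_cast card_le_card this
  · intro S hS
    obtain ⟨W, hW⟩ : ∃ W, W = primorial w := ⟨_, rfl⟩
    rw [← hW]
    obtain ⟨Bd, hBd⟩ : ∃ Bd, Bd = (Ioc u (u + H) \ T).filter (fun h => (extends_ x S h : ℝ) <
              min c1 c2 * ((W : ℝ) / Nat.totient W) * (coprimes W S h / l) -
                ε * 𝔖 T * (x / l ^ (k + 1))) := ⟨_, rfl⟩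
    rw [← hBd]
    have b2 := a2 T hTk hS0 hTB u H hK2H hHB (fun h => if h ∈ Bd then 1 else 0)
      (fun h => by split_ifs <;> norm_num) (fun h => by split_ifs <;> norm_num) S (by rw [RS_eq]; exact hS)
    rw [WW_eq, ← hW] at b2
    have hind : ∀ F : ℕ → ℝ, ∑ h ∈ Ioc u (u + H) \ T, (if h ∈ Bd then (1 : ℝ) else 0) * F h = ∑ h ∈ Bd, F h := by
      intro F
      simp only [ite_mul, one_mul, zero_mul]
      rw [← sum_filter]
      apply sum_congr _ (fun _ _ => rfl)
      rw [hBd]
      ext h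
      simp only [mem_filter]
      tauto
    rw [hind, hind] at b2
    have b3 : ∑ h ∈ Bd, ((S.filter (fun n => APx x (n + h))).card : ℝ) ≤
        ∑ h ∈ Bd, (c2 * ((W : ℝ) / Nat.totient W) / l * ((S.filter (fun n => Nat.Coprime W (n + h))).card : ℝ) -
          ε * 𝔖 T * (x / l ^ (k + 1))) := by
      apply sum_le_sum
      intro h hh
      rw [hBd, mem_filter] at hh
      have h3 : ((S.filter (fun n => APx x (n + h))).card : ℝ) = (extends_ x S h : ℝ) := rfl
      have h4 : ((S.filter (fun n => Nat.Coprime W (n + h))).card : ℝ) = (coprimes W S h : ℝ) := rfl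
      rw [h3, h4]
      refine hh.2.le.trans ?_
      apply sub_le_sub_right
      have e : c2 * ((W : ℝ) / Nat.totient W) / l * (coprimes W S h : ℝ) =
          c2 * (((W : ℝ) / Nat.totient W) * (coprimes W S h / l)) := by ring
      rw [e, mul_assoc]
      exact mul_le_mul_of_nonneg_right (min_le_right _ _) (by positivity)
    rw [sum_sub_distrib, ← mul_sum, sum_const, nsmul_eq_mul] at b3
    have hE : 0 < 𝔖 T * (x / l ^ (k + 1)) := by positivity
    have e1 : ε₁ * (H / l) * (Pool.Agent.H387R2.Uni.CT T * (x / l ^ k)) = ε₁ * H * (𝔖 T * (x / l ^ (k + 1))) := by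
      rw [CT_eq, pow_succ]
      field_simp
    rw [e1] at b2
    have b4 : (Bd.card : ℝ) * ε * (𝔖 T * (x / l ^ (k + 1))) ≤ ε₁ * H * (𝔖 T * (x / l ^ (k + 1))) := by
      have e2 : (Bd.card : ℝ) * (ε * 𝔖 T * (x / l ^ (k + 1))) = (Bd.card : ℝ) * ε * (𝔖 T * (x / l ^ (k + 1))) := by
        ring
      rw [e2] at b3
      linarith
    have b5 := le_of_mul_le_mul_right b4 hE
    have b6 : ε₁ * (H : ℝ) ≤ ε * ε * H := mul_le_mul_of_nonneg_right hε₁ε hH0.le
    have b7 : ε * (Bd.card : ℝ) ≤ ε * (ε * H) := by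
      calc ε * (Bd.card : ℝ) = Bd.card * ε := by ring
        _ ≤ ε * ε * H := b5.trans b6
        _ = _ := by ring
    exact le_of_mul_le_mul_left b7 hε

end Pool.Agent.Results.MP_3efbeb_nt.AlmostPrimeNeighbours
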