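import Pool.Agent.L0h43.TE.Fin

/-!
# Almost prime triples, quadruples, `k`-tuples containing an arbitrary given pair

There is an absolute constant `c > 0` such that for every `k` and every even `b ≤ (log x) ^ A` (for instance
`b = 2`), in every window `(u, u + H]` with `H ≥ K log x`, `u + H ≤ (log x) ^ A`: for almost all of the
`k`-element sets `D` of the window with `𝔖({0, b} ∪ D) ≠ 0` there are at least
`c ^ (k + 1) 𝔖({0, b} ∪ D) x / (log x) ^ (k + 2)` primes `p ≤ x` for which `p + b` and all `p + d` (`d ∈ D`)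
have at most three prime factors, all of them at least `x ^ (1 / 9)`; the same for the sums over `D` with
arbitrary weights in `[0, 1]`. So for `k = 1` and `k = 2` almost all triples `p, p + 2, p + d` and almost all
quadruples `p, p + 2, p + d, p + d'`.

The second part starts from an arbitrary set `T` of shifts and an arbitrary set `S` of `n ≤ x` for which every
`n + t` (`t ∈ T`) is prime or has no prime factor below `x ^ (1 / 16)`: for almost all `k`-element sets `D` of
the window the number of the `n ∈ S` for which all `n + d` are almost primes is at least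
`(c (W / φ(W)) / log x) ^ k` times the number of the `n ∈ S` for which all `n + d` are coprime to the primorial `W`,
up to `ε 𝔖(T) x / (log x) ^ (#T + k)`.

Method. One more shift: the variance of a minorant for almost primes in the window (weighted linear sieve with
universal weights behind a preliminary sieve), over all `T`-tuples without small prime factors in a class modulo `W`,
is small, uniformly in `T`. The iteration runs through sums over the sets `D` with arbitrary weights, because no
upper bound for an individual `D` is available. For the pair: a lower bound for the `n ≤ x` in a class modulo `W`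
with `n` prime and `n + b` almost prime, for every `b` (Chen's weighted sieve, theorem of Bombieri and Vinogradov).
-/

set_option autoImplicit false

open Finset Filter

namespace Pool.Agent.Results.MP_3efbeb_nt.AlmostPrimeTuplesEveryPair

/-- `m` has at most three prime factors (counted with multiplicity), all of them at least
`x ^ (1 / 9)` -/
def almostPrime (x : ℝ) (m : ℕ) : Prop :=
  m.primeFactorsList.length ≤ 3 ∧ ∀ p : ℕ, p.Prime → p ∣ m → x ^ (1 / 9 : ℝ) ≤ p

open Classical in
/-- the number of primes `p ≤ x` for which `p + b` and all `p + d`, `d ∈ D`, are almost primes -/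
noncomputable def count (x : ℝ) (b : ℕ) (D : Finset ℕ) : ℕ :=
  ((Icc 1 ⌊x⌋₊).filter (fun p => p.Prime ∧ almostPrime x (p + b) ∧ ∀ d ∈ D, almostPrime x (p + d))).card

open Classical in
/-- the `1 ≤ n ≤ x` for which every `n + t`, `t ∈ T`, is a prime or has no prime factor below `x ^ (1 / 16)` -/
noncomputable def tuples (x : ℝ) (T : Finset ℕ) : Finset ℕ :=
  (Icc 1 ⌊x⌋₊).filter (fun n => ∀ t ∈ T,
    (n + t).Prime ∨ ∀ p : ℕ, p.Prime → p ∣ n + t → x ^ (1 / 16 : ℝ) ≤ p)

open Classical in
/-- the number of `n ∈ S` for which all `n + d`, `d ∈ D`, are almost primes -/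
noncomputable def extending (x : ℝ) (S D : Finset ℕ) : ℕ :=
  (S.filter (fun n => ∀ d ∈ D, almostPrime x (n + d))).card

open Classical in
/-- the number of `n ∈ S` for which all `n + d`, `d ∈ D`, are coprime to `W` -/
noncomputable def coprimes (W : ℕ) (S D : Finset ℕ) : ℕ :=
  (S.filter (fun n => ∀ d ∈ D, Nat.Coprime W (n + d))).card

/-- the number of residue classes modulo `p` that meet `T` -/
def nu (T : Finset ℕ) (p : ℕ) : ℕ := (T.image (· % p)).card

/-- the factor at `p` of the singular series of `T` -/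
noncomputable def loc (T : Finset ℕ) (p : ℕ) : ℝ :=
  (1 - (nu T p : ℝ) / p) / (1 - 1 / (p : ℝ)) ^ T.card

/-- the singular series of `T` -/
noncomputable def 𝔖 (T : Finset ℕ) : ℝ := ∏' p : Nat.Primes, loc T p

/-- `𝔖 T x / (log x) ^ #T` -/
noncomputable def model (x : ℝ) (T : Finset ℕ) : ℝ := 𝔖 T * (x / Real.log x ^ T.card)

open Classical in
/-- the `k`-element sets `D ⊆ I` with `b ∉ D`, `𝔖 ({0, b} ∪ D) ≠ 0` and
`count x b D < c ^ (k + 1) * model x ({0, b} ∪ D)` -/
noncomputable def below (x c : ℝ) (b k : ℕ) (I : Finset ℕ) : Finset (Finset ℕ) :=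
  ((I \ {b}).powersetCard k).filter (fun D => 𝔖 ({0, b} ∪ D) ≠ 0 ∧
    (count x b D : ℝ) < c ^ (k + 1) * model x ({0, b} ∪ D))

open Classical in
/-- the `k`-element sets `D ⊆ I \ T` with
`extending x S D < (c (W / φ(W)) / log x) ^ k * coprimes W S D - ε * model x T / (log x) ^ k` -/
noncomputable def fewer (x c ε : ℝ) (W k : ℕ) (T S I : Finset ℕ) : Finset (Finset ℕ) :=
  ((I \ T).powersetCard k).filter (fun D => (extending x S D : ℝ) <
    (c * ((W : ℝ) / Nat.totient W) / Real.log x) ^ k * (coprimes W S D : ℝ) - ε * (model x T / Real.log x ^ k))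

open Pool.Agent.L0h43.TD Pool.Agent.L0h43.TE

theorem CT_eq (T : Finset ℕ) : Pool.Agent.H387R2.Uni.CT T = 𝔖 T := rfl

theorem WW_eq (w : ℕ) : Pool.Agent.H387R2.Uni.WW w = primorial w := rfl

theorem RS_eq (x : ℝ) (T : Finset ℕ) : RS x T = tuples x T := by
  unfold RS tuples RT
  congr!

theorem cT_eq (x : ℝ) (b : ℕ) (D : Finset ℕ) : cT x 0 b D = count x b D := by
  unfold cT count
  congr!

theorem sdiff_zero (u H b : ℕ) : Ioc u (u + H) \ {0, b} = Ioc u (u + H) \ {b} := by
  ext t
  simp only [Finset.mem_sdiff, mem_Ioc, mem_insert, mem_singleton]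
  omega

theorem card_un {u H b k : ℕ} {D : Finset ℕ} (hb : b ≠ 0) (hD : D ∈ (Ioc u (u + H) \ {b}).powersetCard k) :
    ({0, b} ∪ D).card = k + 2 := by
  rw [mem_powersetCard] at hD
  rw [card_union_of_disjoint, card_pair (Ne.symm hb), hD.2, add_comm]
  rw [disjoint_left]
  intro t ht1 ht2
  have h := hD.1 ht2
  rw [Finset.mem_sdiff, mem_Ioc, mem_singleton] at h
  rw [mem_insert, mem_singleton] at ht1
  omega

/-- The product `𝔖 T` converges for every finite set `T` of natural numbers, and `𝔖 {0, b} > 0` for even `b`. There is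
an absolute constant `c > 0` with the following properties.

(1) For all `k ∈ ℕ` and `ε > 0` there is `K` such that for every `A ≥ 0`, all large real `x`, EVERY even
`1 ≤ b ≤ (log x) ^ A` and all `u`, `H` with `K log x ≤ H`, `u + H ≤ (log x) ^ A` the following holds for the
window `I = (u, u + H]`: (a) for all weights `0 ≤ g ≤ 1` on the `k`-element sets `D ⊆ I \ {b}`, the sum of
`g D * count x b D` is at least `c ^ (k + 1)` times the sum of `g D * model x ({0, b} ∪ D)`, minus
`ε (H / log x) ^ k model x {0, b}`; (b) `count x b D ≥ c ^ (k + 1) * model x ({0, b} ∪ D)` for all but at most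
`ε (H choose k)` of the `k`-element sets `D ⊆ I \ {b}` with `𝔖 ({0, b} ∪ D) ≠ 0`.

(2) For all `j`, `k ∈ ℕ` and `ε > 0` there are `K` and `w₀` such that for all `w ≥ w₀` and `A ≥ 0`, all large `x`, all
sets `T` of `j` natural numbers `≤ (log x) ^ A` with `𝔖 T ≠ 0`, all windows `I = (u, u + H]` with `K log x ≤ H` and
`u + H ≤ (log x) ^ A`, and every set `S ⊆ tuples x T`, with `W` the product of the primes `p ≤ w`:
`extending x S D ≥ (c (W / φ(W)) / log x) ^ k * coprimes W S D - ε * model x T / (log x) ^ k` for all but at most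
`ε (H choose k)` of the `k`-element sets `D ⊆ I \ T`. -/
theorem result :
    (∀ T : Finset ℕ, HasProd (fun p : Nat.Primes => loc T p) (𝔖 T)) ∧ (∀ b : ℕ, Even b → 0 < 𝔖 {0, b}) ∧
    ∃ c : ℝ, 0 < c ∧
      (∀ (k : ℕ) (ε : ℝ), 0 < ε → ∃ K : ℝ, ∀ A : ℝ, 0 ≤ A → ∃ x₀ : ℝ, ∀ x : ℝ, x₀ ≤ x →
        ∀ b : ℕ, 1 ≤ b → Even b → (b : ℝ) ≤ Real.log x ^ A →
        ∀ u H : ℕ, K * Real.log x ≤ H → ((u + H : ℕ) : ℝ) ≤ Real.log x ^ A →
          (∀ g : Finset ℕ → ℝ, (∀ D, 0 ≤ g D ∧ g D ≤ 1) →
            c ^ (k + 1) * ∑ D ∈ (Ioc u (u + H) \ {b}).powersetCard k, g D * model x ({0, b} ∪ D) -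
                ε * (H / Real.log x) ^ k * model x {0, b} ≤
              ∑ D ∈ (Ioc u (u + H) \ {b}).powersetCard k, g D * (count x b D : ℝ)) ∧
          ((below x c b k (Ioc u (u + H))).card : ℝ) ≤ ε * (H.choose k : ℝ)) ∧
      ∀ (j k : ℕ) (ε : ℝ), 0 < ε → ∃ K : ℝ, ∃ w₀ : ℕ, ∀ w : ℕ, w₀ ≤ w → ∀ A : ℝ, 0 ≤ A → ∃ x₀ : ℝ,
        ∀ x : ℝ, x₀ ≤ x → ∀ T : Finset ℕ, T.card = j → (∀ t ∈ T, (t : ℝ) ≤ Real.log x ^ A) → 𝔖 T ≠ 0 →
        ∀ u H : ℕ, K * Real.log x ≤ H → ((u + H : ℕ) : ℝ) ≤ Real.log x ^ A → ∀ S ⊆ tuples x T,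
          ((fewer x c ε (primorial w) k T S (Ioc u (u + H))).card : ℝ) ≤ ε * (H.choose k : ℝ) := by
  classical
  obtain ⟨c1, hc1, hc11, H1⟩ := pairsAE
  obtain ⟨c2, hc2, hc21, H2⟩ := baseAE
  obtain ⟨c, hc⟩ : ∃ c, c = min c1 c2 := ⟨_, rfl⟩
  have hc0 : 0 < c := by rw [hc]; exact lt_min hc1 hc2
  have hcc1 : c ≤ c1 := by rw [hc]; exact min_le_left _ _
  have hcc2 : c ≤ c2 := by rw [hc]; exact min_le_right _ _
  refine ⟨fun T => Pool.Agent.H387R2.Uni.CT_hasProd T, fun b hb => Pool.Agent.L0h43.TB.CT_even_pos hb, c, hc0, ?_, ?_⟩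
  · intro k ε hε
    obtain ⟨K, hK, h1⟩ := H1 k ε hε
    refine ⟨K, fun A hA => ?_⟩
    obtain ⟨x₀, h⟩ := eventually_atTop.1 ((h1 A hA).and
      ((Real.tendsto_log_atTop.eventually_ge_atTop 1).and (eventually_ge_atTop 1)))
    refine ⟨x₀, fun x hx b hb1 hbe hbA u H hKH hHA => ?_⟩
    obtain ⟨g1, g2, g3⟩ := h x hx
    have hl : 0 < Real.log x := by linarith
    have hx0 : 0 < x := by linarith
    have hb0 : b ≠ 0 := by omega
    have hCTb : 0 < Pool.Agent.H387R2.Uni.CT {0, b} := Pool.Agent.L0h43.TB.CT_even_pos hbe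
    obtain ⟨r1, r2⟩ := g1 0 b (Ne.symm hb0) hCTb.ne' (by
      rw [Nat.cast_zero]; positivity) hbA u H hKH hHA
    constructor
    · intro g hg
      have h2 := r1 g (fun D => (hg D).1) (fun D => (hg D).2)
      rw [sdiff_zero] at h2
      have e1 : ∑ D ∈ (Ioc u (u + H) \ {b}).powersetCard k, g D * model x ({0, b} ∪ D) =
          (∑ D ∈ (Ioc u (u + H) \ {b}).powersetCard k, g D * Pool.Agent.H387R2.Uni.CT ({0, b} ∪ D)) *
            (x / Real.log x ^ (k + 2)) := by
        rw [sum_mul]
        apply sum_congr rfl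
        intro D hD
        unfold model
        rw [CT_eq, card_un hb0 hD]
        ring
      have e2 : ∑ D ∈ (Ioc u (u + H) \ {b}).powersetCard k, g D * (cT x 0 b D : ℝ) =
          ∑ D ∈ (Ioc u (u + H) \ {b}).powersetCard k, g D * (count x b D : ℝ) := by
        apply sum_congr rfl
        intro D _
        rw [cT_eq]
      rw [← e2]
      refine le_trans ?_ h2
      rw [e1]
      have e3 : ε * (H / Real.log x) ^ k * model x {0, b} =
          ε * (H : ℝ) ^ k * Pool.Agent.H387R2.Uni.CT {0, b} * (x / Real.log x ^ (k + 2)) := by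
        unfold model
        rw [CT_eq, card_pair (Ne.symm hb0), pow_add, div_pow]
        field_simp
      rw [e3, sub_mul]
      apply sub_le_sub_right
      have hG : 0 ≤ (∑ D ∈ (Ioc u (u + H) \ {b}).powersetCard k, g D * Pool.Agent.H387R2.Uni.CT ({0, b} ∪ D)) *
            (x / Real.log x ^ (k + 2)) := by
        apply mul_nonneg _ (by positivity)
        exact sum_nonneg fun D _ => mul_nonneg (hg D).1 (Pool.Agent.H387R2.Uni.CT_nonneg _)
      rw [mul_assoc]
      exact mul_le_mul_of_nonneg_right (pow_le_pow_left₀ hc0.le hcc1 _) hG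
    · refine le_trans ?_ r2
      rw [Nat.cast_le]
      apply card_le_card
      intro D hD
      unfold below at hD
      unfold bdP
      rw [mem_filter] at hD ⊢
      rw [sdiff_zero]
      refine ⟨hD.1, hD.2.1, ?_⟩
      rw [cT_eq]
      refine lt_of_lt_of_le hD.2.2 ?_
      unfold model
      rw [card_un hb0 hD.1, CT_eq]
      apply mul_le_mul_of_nonneg_right (pow_le_pow_left₀ hc0.le hcc1 _)
      have := Pool.Agent.H387R2.Uni.CT_nonneg ({0, b} ∪ D)
      rw [CT_eq] at this
      positivity
  · intro j k ε hε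
    obtain ⟨K, hK, w₀, h1⟩ := H2 j k ε hε
    refine ⟨K, w₀, fun w hw A hA => ?_⟩
    obtain ⟨x₀, h⟩ := eventually_atTop.1 ((h1 w hw A hA).and
      ((Real.tendsto_log_atTop.eventually_ge_atTop 1).and (eventually_ge_atTop 1)))
    refine ⟨x₀, fun x hx T hTj hTA hT0 u H hKH hHA S hS => ?_⟩
    obtain ⟨g1, g2, g3⟩ := h x hx
    have hl : 0 < Real.log x := by linarith
    have h2 := g1 T hTj hT0 hTA u H hKH hHA S (by rw [RS_eq]; exact hS)
    refine le_trans ?_ h2
    rw [Nat.cast_le]
    apply card_le_card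
    intro D hD
    unfold fewer at hD
    unfold bdS
    rw [mem_filter] at hD ⊢
    refine ⟨hD.1, ?_⟩
    rw [WW_eq]
    have e1 : ((S.filter (fun n => ∀ d ∈ D, APx x (n + d))).card : ℝ) = (extending x S D : ℝ) := by
      unfold extending
      congr!
    have e2 : ((S.filter (fun n => ∀ d ∈ D, Nat.Coprime (primorial w) (n + d))).card : ℝ) =
        (coprimes (primorial w) S D : ℝ) := by
      unfold coprimes
      congr!
    rw [e1, e2]
    refine lt_of_lt_of_le hD.2 ?_
    have e3 : ε * (model x T / Real.log x ^ k) =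
        ε * Pool.Agent.H387R2.Uni.CT T * (x / Real.log x ^ (j + k)) := by
      unfold model
      rw [CT_eq, hTj, pow_add]
      field_simp
    rw [e3]
    apply sub_le_sub_right
    apply mul_le_mul_of_nonneg_right _ (Nat.cast_nonneg _)
    apply pow_le_pow_left₀ (by positivity)
    apply div_le_div_of_nonneg_right _ hl.le
    exact mul_le_mul_of_nonneg_right hcc2 (by positivity)

end Pool.Agent.Results.MP_3efbeb_nt.AlmostPrimeTuplesEveryPair
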