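import Pool.Agent.L0h43.TB.FinZ2

/-!
# Primes in short windows next to the prime pairs, triples, `k`-tuples

Let `T` be a finite set of integers with `k` elements, for example `{0, 2}`, `{0, 2, 6}` or `{0, 2, 6, 8}`, and
`ε > 0`. For `K` large and all windows `(u, u + H] ⊂ [-(log x)^A, (log x)^A]` with `H ≥ K log x`:

* up to at most `ε x / (log x)^k` exceptions, every `n ≤ x` for which all `n + t`, `t ∈ T`, are prime has at most
  `(4 + ε) H / log x` primes in the window `(n + u, n + u + H]`;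
* the average, over the `r`-element subsets `E` of the window, of the number of the `n ≤ x` for which all
  `n + t`, `t ∈ T ∪ E`, are prime is at most
  `(4 ^ r + ε) π(x; T) / (log x) ^ r + ε x / (log x) ^ (k + r)`.

Thus a prime pair `n, n + 2` is on average over `d` at most `4 + ε` times as often as expected part of a prime
triple `n, n + 2, n + d`, and a prime triple `n, n + 2, n + 6` of a prime quadruple `n, n + 2, n + 6, n + d`.

Method: second moment of the Selberg majorants of level `x ^ (1 / 4)` of the `n + h`, `h` in the window, over the `n`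
for which all `n + t` are almost prime, in the classes modulo `W` (fundamental lemma of the sieve), and averages of
the local factors over the window.
-/

set_option autoImplicit false

open Finset Filter

namespace Pool.Agent.Results.MP_3efbeb_nt.NextToTuples

/-- the number of integers `1 ≤ n ≤ x` for which all `n + t`, `t ∈ T`, are (positive) primes -/
noncomputable def count (x : ℝ) (T : Finset ℤ) : ℕ :=
  ((Icc 1 ⌊x⌋₊).filter (fun n : ℕ => ∀ t ∈ T, ((n : ℤ) + t).toNat.Prime)).card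

open Classical in
/-- the number of those `n` with more than `X` primes in the window `(n + u, n + u + H]` -/
noncomputable def crowded (x : ℝ) (T : Finset ℤ) (u : ℤ) (H : ℕ) (X : ℝ) : ℕ :=
  ((Icc 1 ⌊x⌋₊).filter (fun n : ℕ => (∀ t ∈ T, ((n : ℤ) + t).toNat.Prime) ∧
    X < (((Ioc u (u + H)).filter (fun h : ℤ => ((n : ℤ) + h).toNat.Prime)).card : ℝ))).card

theorem result (T : Finset ℤ) (r : ℕ) (ε : ℝ) (hε : 0 < ε) : ∃ K : ℝ, 0 < K ∧ ∀ A : ℝ, ∃ x₀ : ℝ,
    ∀ x : ℝ, x₀ ≤ x → ∀ (u : ℤ) (H : ℕ), K * Real.log x ≤ H → -Real.log x ^ A ≤ u →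
      ((u + H : ℤ) : ℝ) ≤ Real.log x ^ A →
      (r.factorial : ℝ) * ∑ E ∈ (Ioc u (u + H) \ T).powersetCard r, (count x (T ∪ E) : ℝ) ≤
        ((4 ^ r + ε) * count x T + ε * (x / Real.log x ^ T.card)) * (H / Real.log x) ^ r ∧
      (crowded x T u H ((4 + ε) * (H / Real.log x)) : ℝ) ≤ ε * (x / Real.log x ^ T.card) := by
  obtain ⟨S, hS⟩ : ∃ S : ℝ, S = max (Pool.Agent.L0h43.TB.SZ T) 0 + 1 := ⟨_, rfl⟩
  have hS1 : 1 ≤ S := by
    rw [hS]
    have := le_max_right (Pool.Agent.L0h43.TB.SZ T) 0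
    linarith
  have hSS : Pool.Agent.L0h43.TB.SZ T + 1 ≤ S := by
    rw [hS]
    have := le_max_left (Pool.Agent.L0h43.TB.SZ T) 0
    linarith
  have hε' : 0 < ε / S := by positivity
  have hε'ε : ε / S ≤ ε := div_le_self hε.le hS1
  have e : ε / S * S = ε := by field_simp
  obtain ⟨K1, hK1, h1⟩ := Pool.Agent.L0h43.TB.Z_more T.card r (ε / S) hε'
  obtain ⟨K2, hK2, h2⟩ := Pool.Agent.L0h43.TB.Z_ae T.card (ε / S) hε'
  refine ⟨max K1 K2, by linarith [le_max_left K1 K2], fun A => ?_⟩
  obtain ⟨B, hB⟩ : ∃ B : ℝ, B = max A 1 := ⟨_, rfl⟩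
  have hB1 : 1 ≤ B := by rw [hB]; exact le_max_right _ _
  have hBA : A ≤ B := by rw [hB]; exact le_max_left _ _
  obtain ⟨m, hm⟩ : ∃ m : ℝ, ∀ t ∈ T, |(t : ℝ)| ≤ m :=
    ⟨∑ t ∈ T, |(t : ℝ)|, fun t ht => single_le_sum (f := fun t : ℤ => |(t : ℝ)|) (fun _ _ => abs_nonneg _) ht⟩
  obtain ⟨x₀, hx₀⟩ := eventually_atTop.1 ((h1 B (by linarith)).and ((h2 B (by linarith)).and
    ((Real.tendsto_log_atTop.eventually_ge_atTop (max 1 m)).and (eventually_ge_atTop 1))))
  refine ⟨x₀, fun x hx u H hKH huA hHA => ?_⟩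
  obtain ⟨a1, a2, a3, a4⟩ := hx₀ x hx
  have hl1 : 1 ≤ Real.log x := (le_max_left _ _).trans a3
  have hlm : m ≤ Real.log x := (le_max_right _ _).trans a3
  have hl0 : 0 < Real.log x := by linarith
  have hAB : Real.log x ^ A ≤ Real.log x ^ B := Real.rpow_le_rpow_of_exponent_le hl1 hBA
  have hTB : ∀ t ∈ T, |(t : ℝ)| ≤ Real.log x ^ B := by
    intro t ht
    refine ((hm t ht).trans hlm).trans ?_
    calc Real.log x = Real.log x ^ (1 : ℝ) := (Real.rpow_one _).symm
      _ ≤ _ := Real.rpow_le_rpow_of_exponent_le hl1 hB1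
  have hK1H : K1 * Real.log x ≤ H := (mul_le_mul_of_nonneg_right (le_max_left _ _) hl0.le).trans hKH
  have hK2H : K2 * Real.log x ≤ H := (mul_le_mul_of_nonneg_right (le_max_right _ _) hl0.le).trans hKH
  have huB : -Real.log x ^ B ≤ u := by linarith
  have hHB : ((u + H : ℤ) : ℝ) ≤ Real.log x ^ B := hHA.trans hAB
  have b1 := a1 T rfl hTB u H hK1H huB hHB
  have b2 := a2 T rfl hTB u H hK2H huB hHB
  have hq : 0 ≤ x / Real.log x ^ T.card := by positivity
  have hH : 0 ≤ ((H : ℝ) / Real.log x) ^ r := by positivity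
  have herr : ε / S * ((Pool.Agent.L0h43.TB.SZ T + 1) * (x / Real.log x ^ T.card)) ≤
      ε * (x / Real.log x ^ T.card) := by
    calc ε / S * ((Pool.Agent.L0h43.TB.SZ T + 1) * (x / Real.log x ^ T.card)) ≤
        ε / S * (S * (x / Real.log x ^ T.card)) := by
          apply mul_le_mul_of_nonneg_left _ hε'.le
          exact mul_le_mul_of_nonneg_right hSS hq
      _ = (ε / S * S) * (x / Real.log x ^ T.card) := by ring
      _ = _ := by rw [e]
  constructor
  · refine b1.trans ?_
    have c1 : (4 ^ r + ε / S) * (H / Real.log x) ^ r * (Pool.Agent.L0h43.TB.cz x T : ℝ) ≤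
        (4 ^ r + ε) * (H / Real.log x) ^ r * (Pool.Agent.L0h43.TB.cz x T : ℝ) := by
      apply mul_le_mul_of_nonneg_right _ (Nat.cast_nonneg _)
      apply mul_le_mul_of_nonneg_right _ hH
      linarith
    have c2 := mul_le_mul_of_nonneg_right herr hH
    have e2 : ((4 ^ r + ε) * (count x T : ℝ) + ε * (x / Real.log x ^ T.card)) * (H / Real.log x) ^ r =
        (4 ^ r + ε) * (H / Real.log x) ^ r * (Pool.Agent.L0h43.TB.cz x T : ℝ) +
          ε * (x / Real.log x ^ T.card) * (H / Real.log x) ^ r := by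
      have : count x T = Pool.Agent.L0h43.TB.cz x T := rfl
      rw [this]
      ring
    rw [e2]
    have e3 : ε / S * (H / Real.log x) ^ r * ((Pool.Agent.L0h43.TB.SZ T + 1) * (x / Real.log x ^ T.card)) =
        ε / S * ((Pool.Agent.L0h43.TB.SZ T + 1) * (x / Real.log x ^ T.card)) * (H / Real.log x) ^ r := by ring
    rw [e3]
    exact add_le_add c1 c2
  · refine le_trans ?_ (b2.trans herr)
    have hthr : (4 + ε / S) * ((H : ℝ) / Real.log x) ≤ (4 + ε) * (H / Real.log x) := by
      apply mul_le_mul_of_nonneg_right _ (by positivity)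
      linarith
    have : crowded x T u H ((4 + ε) * (H / Real.log x)) ≤
        Pool.Agent.L0h43.TB.bz x T u H ((4 + ε / S) * (H / Real.log x)) := by
      unfold crowded Pool.Agent.L0h43.TB.bz
      apply card_le_card
      intro n hn
      rw [mem_filter] at hn ⊢
      exact ⟨hn.1, hn.2.1, lt_of_le_of_lt hthr hn.2.2⟩
    exact_mod_cast this

end Pool.Agent.Results.MP_3efbeb_nt.NextToTuples
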