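import Mathlib
import Pool.Agent.L0h42.PP.P12

/-!
# Prime triples and quadruples with one given difference, for almost all differences

The question concerns the prime triples `n, n + 2, n + 6` and the prime quadruples `n, n + 2, n + 6, n + 8`, that is
`n, n + d, n + t, n + t + d` with `d = 2`, `t = 6`. Here `t` is given and `d` is one of finitely many even numbers:
there is a constant `C` such that for almost all even `t` some even `d ≤ C` has the property that
`n, n + d, n + t, n + t + d` are all prime for at least `t / (log t) ^ E` integers `n ≤ t`, even with `n ≤ t / Q` for a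
given `Q`. In the same way, for every `m` there is `C` such that for almost all even `t` there is a set `D` of `m`
integers in `[1, C]` for which `n`, `n + t` and all `n + d`, `n + t + d`, `d ∈ D`, are prime for as many `n`.
-/

set_option autoImplicit false

open Finset

namespace Pool.Agent.Results.MP_3efbeb_nt.QuadruplesAlmostAllDifferences

/-- the number of the integers `1 ≤ n ≤ x` for which all `n + r`, `r ∈ T`, are prime -/
def count (x : ℕ) (T : Finset ℕ) : ℕ := ((Icc 1 x).filter (fun n => ∀ r ∈ T, (n + r).Prime)).card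

/-- for some even `d` in `[1, C]` there are at least `t / (log t) ^ E` integers `n ≤ t / Q` for which
`n, n + d, n + t, n + t + d` are prime -/
def HasQuadruples (Q C E t : ℕ) : Prop := ∃ d ∈ Icc 1 C, Even d ∧
  (t : ℝ) / Real.log t ^ E ≤ count (t / Q) {0, d, t, t + d}

/-- for some set `D` of `m` multiples of `M` in `[1, C]` there are at least `t / (log t) ^ E` integers `n ≤ t / Q` for
which `n`, `n + t` and all `n + d`, `n + t + d`, `d ∈ D`, are prime -/
def HasPattern (m M Q C E t : ℕ) : Prop := ∃ D ⊆ Icc 1 C, D.card = m ∧ (∀ d ∈ D, M ∣ d) ∧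
  (t : ℝ) / Real.log t ^ E ≤ count (t / Q) (insert 0 D ∪ (insert 0 D).image (fun d => t + d))

open Classical in
/-- the number of the even `t ≤ N` which do not have the property `P` -/
noncomputable def exceptions (P : ℕ → Prop) (N : ℕ) : ℕ := ((Icc 1 N).filter (fun t => Even t ∧ ¬ P t)).card

theorem exceptions_mono {P P' : ℕ → Prop} (h : ∀ n, P n → P' n) (N : ℕ) : exceptions P' N ≤ exceptions P N := by
  classical
  unfold exceptions
  apply card_le_card
  intro n hn
  rw [mem_filter] at hn ⊢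
  exact ⟨hn.1, hn.2.1, fun h1 => hn.2.2 (h n h1)⟩

open Pool.Agent.L0h42.PP in
theorem Pt_le (Q : ℕ) (hQ : 1 ≤ Q) (D : Finset ℕ) (t : ℕ) : (Pt 1 Q D t).card ≤
    count (t / Q) (insert 0 D ∪ (insert 0 D).image (fun d => t + d)) := by
  unfold count
  apply card_le_card
  intro p hp
  unfold Pt at hp
  rw [mem_filter, mem_Icc] at hp
  obtain ⟨⟨h1, h2⟩, h3, h4⟩ := hp
  rw [mem_filter, mem_Icc]
  refine ⟨⟨h1, ?_⟩, fun r hr => ?_⟩
  · rw [Nat.le_div_iff_mul_le hQ, mul_comm]
    exact h3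
  · rw [mem_union, mem_image] at hr
    rcases hr with hr | ⟨d, hd, rfl⟩
    · exact (h4 r hr).1
    · have h5 := (h4 d hd).2
      have e1 : ((t : ℤ) + 1 * ((p + d : ℕ) : ℤ)).toNat = p + (t + d) := by omega
      rwa [e1] at h5

theorem patterns (m M : ℕ) (hM : 1 ≤ M) : ∃ C : ℕ, ∀ Q : ℕ, 1 ≤ Q → ∀ ε : ℝ, 0 < ε → ∃ E N₀ : ℕ, ∀ N : ℕ, N₀ ≤ N →
    (exceptions (HasPattern m M Q C E) N : ℝ) ≤ ε * N := by
  classical
  obtain ⟨C, h⟩ := Pool.Agent.L0h42.PP.pat 1 (Or.inl rfl) m M hM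
  refine ⟨C, fun Q hQ ε hε => ?_⟩
  obtain ⟨E, N0, h0⟩ := h Q hQ ε hε
  refine ⟨E, N0, fun N hN => le_trans (Nat.cast_le.2 ?_) (h0 N hN)⟩
  unfold exceptions
  apply card_le_card
  intro n hn
  rw [mem_filter] at hn ⊢
  refine ⟨hn.1, hn.2.1, fun h1 => hn.2.2 ?_⟩
  obtain ⟨D, h2, h3, h4, h5⟩ := h1
  exact ⟨D, h2, h3, h4, h5.trans (Nat.cast_le.2 (Pt_le Q hQ D n))⟩

/-- (1) There is `C` such that for almost all even `t` there are an even `d ≤ C` and many `n ≤ t / Q` for which
`n, n + d, n + t, n + t + d` are prime. (2) For all `m` and `M ≥ 1` there is `C` such that for almost all even `t`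
there are a set `D` of `m` multiples of `M` in `[1, C]` and many `n ≤ t / Q` for which `n`, `n + t` and all `n + d`,
`n + t + d`, `d ∈ D`, are prime. -/
theorem result :
    (∃ C : ℕ, ∀ Q : ℕ, 1 ≤ Q → ∀ ε : ℝ, 0 < ε → ∃ E N₀ : ℕ, ∀ N : ℕ, N₀ ≤ N →
      (exceptions (HasQuadruples Q C E) N : ℝ) ≤ ε * N) ∧
    (∀ m M : ℕ, 1 ≤ M → ∃ C : ℕ, ∀ Q : ℕ, 1 ≤ Q → ∀ ε : ℝ, 0 < ε → ∃ E N₀ : ℕ, ∀ N : ℕ, N₀ ≤ N →
      (exceptions (HasPattern m M Q C E) N : ℝ) ≤ ε * N) := by
  refine ⟨?_, patterns⟩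
  obtain ⟨C, h⟩ := patterns 1 2 (by norm_num)
  refine ⟨C, fun Q hQ ε hε => ?_⟩
  obtain ⟨E, N0, h0⟩ := h Q hQ ε hε
  refine ⟨E, N0, fun N hN => le_trans (Nat.cast_le.2 (exceptions_mono ?_ N)) (h0 N hN)⟩
  rintro n ⟨D, h1, h2, h3, h4⟩
  obtain ⟨d, rfl⟩ := card_eq_one.1 h2
  refine ⟨d, h1 (mem_singleton_self d), even_iff_two_dvd.2 (h3 d (mem_singleton_self d)), h4.trans (Nat.cast_le.2 ?_)⟩
  unfold count
  apply card_le_card
  intro p hp
  rw [mem_filter] at hp ⊢
  refine ⟨hp.1, fun r hr => hp.2 r ?_⟩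
  rw [mem_union, mem_image]
  simp only [mem_insert, mem_singleton] at hr
  rcases hr with rfl | rfl | rfl | rfl
  · exact Or.inl (mem_insert_self _ _)
  · exact Or.inl (mem_insert_of_mem (mem_singleton_self _))
  · exact Or.inr ⟨0, mem_insert_self _ _, by omega⟩
  · exact Or.inr ⟨d, mem_insert_of_mem (mem_singleton_self _), rfl⟩

end Pool.Agent.Results.MP_3efbeb_nt.QuadruplesAlmostAllDifferences
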